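import Mathlib
import Pool.Agent.D0H61.CC.Stm

/-!
# CC, module CNT, part 1: Fourier identities
-/

set_option autoImplicit false
set_option linter.all false

open Filter Topology MeasureTheory Finset Pool.Agent.D0H61.CC

namespace Pool.Agent.D0H21.CC

theorem ex_norm (x : ℝ) : ‖ex x‖ = 1 := by
  unfold ex
  exact Complex.norm_exp_ofReal_mul_I x

theorem ex_add (x y : ℝ) : ex (x + y) = ex x * ex y := by
  unfold ex
  rw [← Complex.exp_add]
  congr 1
  push_cast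
  ring

theorem ex_cont : Continuous ex := by
  unfold ex
  fun_prop

theorem tri_nonneg (x : ℝ) : 0 ≤ tri x := le_max_left _ _

theorem tri_le_one (x : ℝ) : tri x ≤ 1 := by
  unfold tri
  apply max_le zero_le_one
  have := abs_nonneg x
  linarith

theorem tri_eq_zero {x : ℝ} (h : 1 ≤ |x|) : tri x = 0 := by
  unfold tri
  apply max_eq_left
  linarith

theorem tri_ge_half {x : ℝ} (h : |x| ≤ 1 / 2) : 1 / 2 ≤ tri x := by
  unfold tri
  apply le_max_of_le_right
  linarith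

theorem tri_cont : Continuous tri := by
  unfold tri
  fun_prop

/-- sums over primes -/
noncomputable def ps (P : Finset ℕ) (τ : ℝ) : ℂ :=
  ∑ p ∈ P, ((Real.log p : ℝ) : ℂ) * ex (τ * Real.log p)

/-- sums over `G` -/
noncomputable def gs (G : Finset ℕ) (τ : ℝ) : ℂ := ∑ n ∈ G, ex (τ * Real.log n)

/-- integrals -/
noncomputable def ii (y₁ y₂ τ : ℝ) : ℂ := ∫ x in y₁..y₂, ex (τ * Real.log x)

theorem gs_cont (G : Finset ℕ) : Continuous (gs G) := by
  unfold gs
  refine continuous_finset_sum _ fun n _ => ?_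
  exact ex_cont.comp (by fun_prop)

theorem ps_cont (G : Finset ℕ) : Continuous (ps G) := by
  unfold ps
  refine continuous_finset_sum _ fun n _ => ?_
  exact continuous_const.mul (ex_cont.comp (by fun_prop))

theorem gs_bd (G : Finset ℕ) (τ : ℝ) : ‖gs G τ‖ ≤ G.card := by
  unfold gs
  refine (norm_sum_le _ _).trans ?_
  simp [ex_norm]

theorem ps_bd (G : Finset ℕ) (τ L : ℝ) (hL : ∀ p ∈ G, |Real.log p| ≤ L) : ‖ps G τ‖ ≤ G.card * L := by
  unfold ps
  refine (norm_sum_le _ _).trans ?_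
  refine (Finset.sum_le_sum (g := fun _ => L) fun p hp => ?_).trans ?_
  · rw [norm_mul, ex_norm, mul_one, Complex.norm_real]
    exact hL p hp
  · simp

theorem ii_bd (y₁ y₂ τ : ℝ) (h : y₁ ≤ y₂) : ‖ii y₁ y₂ τ‖ ≤ y₂ - y₁ := by
  unfold ii
  have := intervalIntegral.norm_integral_le_of_norm_le_const (a := y₁) (b := y₂) (C := 1)
    (f := fun x => ex (τ * Real.log x)) (fun x _ => (ex_norm _).le)
  rw [abs_of_nonneg (by linarith), one_mul] at this
  exact this

theorem ii_sq (y₁ y₂ τ : ℝ) (h0 : 0 < y₁) (h : y₁ ≤ y₂) :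
    ‖ii y₁ y₂ τ‖ ^ 2 ≤ (2 * y₂) ^ 2 * (1 + τ ^ 2)⁻¹ := by
  have hd : ∀ x ∈ Set.uIcc y₁ y₂, HasDerivAt (fun x : ℝ => (x : ℂ) * ex (τ * Real.log x))
      ((1 + τ * Complex.I) * ex (τ * Real.log x)) x := by
    intro x hx
    rw [Set.uIcc_of_le h] at hx
    have hx0 : 0 < x := lt_of_lt_of_le h0 hx.1
    have h1 : HasDerivAt (fun x : ℝ => τ * Real.log x) (τ * x⁻¹) x :=
      (Real.hasDerivAt_log hx0.ne').const_mul τ
    have h2 : HasDerivAt (fun x : ℝ => (((τ * Real.log x : ℝ)) : ℂ) * Complex.I)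
        (((τ * x⁻¹ : ℝ) : ℂ) * Complex.I) x := (h1.ofReal_comp).mul_const _
    have h3 := h2.cexp
    have h4 : HasDerivAt (fun x : ℝ => (x : ℂ)) 1 x := by
      simpa using (hasDerivAt_id x).ofReal_comp
    have h5 := h4.mul h3
    refine h5.congr_deriv ?_
    unfold ex
    push_cast
    have : (x : ℂ) ≠ 0 := by exact_mod_cast hx0.ne'
    field_simp
  have hint : IntervalIntegrable (fun x : ℝ => (1 + τ * Complex.I) * ex (τ * Real.log x)) volume y₁ y₂ := by
    apply ContinuousOn.intervalIntegrable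
    rw [Set.uIcc_of_le h]
    refine continuousOn_const.mul (ex_cont.comp_continuousOn ?_)
    refine continuousOn_const.mul (Real.continuousOn_log.mono ?_)
    intro x hx
    have := lt_of_lt_of_le h0 hx.1
    exact this.ne'
  have h1 := intervalIntegral.integral_eq_sub_of_hasDerivAt hd hint
  rw [intervalIntegral.integral_const_mul] at h1
  have h2 : ‖(1 + τ * Complex.I)‖ * ‖ii y₁ y₂ τ‖ ≤ 2 * y₂ := by
    rw [← norm_mul]
    unfold ii
    rw [h1]
    refine (norm_sub_le _ _).trans ?_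
    rw [norm_mul, norm_mul, ex_norm, ex_norm, Complex.norm_real, Complex.norm_real, mul_one, mul_one,
      Real.norm_of_nonneg (h0.le.trans h), Real.norm_of_nonneg h0.le]
    linarith
  have h3 : ‖(1 + τ * Complex.I)‖ ^ 2 = 1 + τ ^ 2 := by
    rw [← Complex.normSq_eq_norm_sq]
    simp [Complex.normSq_apply]
    ring
  have h4 : (1 + τ ^ 2) * ‖ii y₁ y₂ τ‖ ^ 2 ≤ (2 * y₂) ^ 2 := by
    rw [← h3, ← mul_pow]
    exact pow_le_pow_left₀ (by positivity) h2 2
  have h5 : 0 < 1 + τ ^ 2 := by positivity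
  rw [← div_eq_mul_inv, le_div_iff₀ h5]
  linarith

section four

variable (K : ℝ → ℝ) (hKc : Continuous K) (hKi : Integrable K) (hK0 : ∀ ξ, 0 ≤ K ξ)
  (hinv : ∀ x : ℝ, ((tri x : ℝ) : ℂ) = ∫ ξ, (K ξ : ℂ) * ex (2 * Real.pi * x * ξ))

include hKc hKi hK0 in
theorem int_of_bd (f : ℝ → ℂ) (hf : Continuous f) (B : ℝ) (hB : ∀ ξ, ‖f ξ‖ ≤ B) :
    Integrable fun ξ => (K ξ : ℂ) * f ξ := by
  refine (hKi.mul_const B).mono' ?_ (ae_of_all _ fun ξ => ?_)
  · exact ((Complex.continuous_ofReal.comp hKc).mul hf).aestronglyMeasurable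
  · rw [norm_mul, Complex.norm_real, Real.norm_of_nonneg (hK0 ξ)]
    exact mul_le_mul_of_nonneg_left (hB ξ) (hK0 ξ)

include hKc hKi hK0 in
theorem int_sq (f : ℝ → ℂ) (hf : Continuous f) (B : ℝ) (hB : ∀ ξ, ‖f ξ‖ ≤ B) :
    Integrable fun ξ => K ξ * ‖f ξ‖ ^ 2 := by
  refine (hKi.mul_const (B ^ 2)).mono' ?_ (ae_of_all _ fun ξ => ?_)
  · exact (hKc.mul (hf.norm.pow 2)).aestronglyMeasurable
  · rw [Real.norm_of_nonneg (mul_nonneg (hK0 ξ) (by positivity))]
    exact mul_le_mul_of_nonneg_left (pow_le_pow_left₀ (norm_nonneg _) (hB ξ) 2) (hK0 ξ)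

omit K in
theorem triple (k e : ℂ) (G P Q : Finset ℕ) (a b c : ℕ → ℂ) :
    k * (e * (∑ n ∈ G, a n) * (∑ p ∈ P, b p) * (∑ r ∈ Q, c r)) =
      ∑ n ∈ G, ∑ p ∈ P, ∑ r ∈ Q, k * (e * a n * b p * c r) := by
  rw [Finset.mul_sum G a e, Finset.sum_mul G _ (∑ p ∈ P, b p), Finset.sum_mul G _ (∑ r ∈ Q, c r),
    Finset.mul_sum G _ k]
  refine Finset.sum_congr rfl fun n _ => ?_
  rw [Finset.mul_sum P b _, Finset.sum_mul P _ (∑ r ∈ Q, c r), Finset.mul_sum P _ k]
  refine Finset.sum_congr rfl fun p _ => ?_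
  rw [Finset.mul_sum Q c _, Finset.mul_sum Q _ k]

include hKc hKi hK0 hinv in
theorem four_sum (G P Q : Finset ℕ) (l φ κ : ℝ) :
    ((∑ n ∈ G, ∑ p ∈ P, ∑ r ∈ Q, Real.log p * Real.log r *
      tri (l * (φ + κ * Real.log p + (1 - κ) * Real.log n - Real.log r)) : ℝ) : ℂ) =
    ∫ ξ, (K ξ : ℂ) * (ex (2 * Real.pi * (l * φ) * ξ) * gs G (2 * Real.pi * (l * (1 - κ)) * ξ) *
      ps P (2 * Real.pi * (l * κ) * ξ) * ps Q (2 * Real.pi * (-l) * ξ)) := by
  have hI : ∀ x : ℝ, Integrable fun ξ => (K ξ : ℂ) * ex (2 * Real.pi * x * ξ) := fun x =>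
    int_of_bd K hKc hKi hK0 _ (ex_cont.comp (by fun_prop)) 1 fun ξ => (ex_norm _).le
  have e : ∀ ξ : ℝ, (K ξ : ℂ) * (ex (2 * Real.pi * (l * φ) * ξ) * gs G (2 * Real.pi * (l * (1 - κ)) * ξ) *
      ps P (2 * Real.pi * (l * κ) * ξ) * ps Q (2 * Real.pi * (-l) * ξ)) =
      ∑ n ∈ G, ∑ p ∈ P, ∑ r ∈ Q, ((Real.log p * Real.log r : ℝ) : ℂ) *
        ((K ξ : ℂ) * ex (2 * Real.pi * (l * (φ + κ * Real.log p + (1 - κ) * Real.log n - Real.log r)) * ξ)) := by
    intro ξ
    unfold gs ps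
    rw [triple]
    refine Finset.sum_congr rfl fun n _ => ?_
    refine Finset.sum_congr rfl fun p _ => ?_
    refine Finset.sum_congr rfl fun r _ => ?_
    have e1 : 2 * Real.pi * (l * (φ + κ * Real.log p + (1 - κ) * Real.log n - Real.log r)) * ξ =
        2 * Real.pi * (l * φ) * ξ + 2 * Real.pi * (l * (1 - κ)) * ξ * Real.log n +
        2 * Real.pi * (l * κ) * ξ * Real.log p + 2 * Real.pi * (-l) * ξ * Real.log r := by ring
    rw [e1, ex_add, ex_add, ex_add]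
    push_cast
    ring
  rw [integral_congr_ae (ae_of_all _ e), integral_finset_sum _ fun n _ =>
    integrable_finset_sum _ fun p _ => integrable_finset_sum _ fun r _ => (hI _).const_mul _]
  push_cast
  refine Finset.sum_congr rfl fun n _ => ?_
  rw [integral_finset_sum _ fun p _ => integrable_finset_sum _ fun r _ => (hI _).const_mul _]
  refine Finset.sum_congr rfl fun p _ => ?_
  rw [integral_finset_sum _ fun r _ => (hI _).const_mul _]
  refine Finset.sum_congr rfl fun r _ => ?_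
  rw [integral_const_mul, ← hinv]

include hKc hKi hK0 hinv in
theorem fub {W : Type} [MeasurableSpace W] (μ : Measure W) [IsFiniteMeasure μ] (F : W → ℝ)
    (hF : Measurable F) :
    Integrable (fun ξ => (K ξ : ℂ) * ∫ w, ex (2 * Real.pi * F w * ξ) ∂μ) ∧
    ∫ ξ, (K ξ : ℂ) * ∫ w, ex (2 * Real.pi * F w * ξ) ∂μ = ∫ w, ((tri (F w) : ℝ) : ℂ) ∂μ := by
  have hprod : Integrable (Function.uncurry fun (ξ : ℝ) (w : W) => (K ξ : ℂ) * ex (2 * Real.pi * F w * ξ))
      (volume.prod μ) := by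
    have h1 : Integrable (fun z : ℝ × W => K z.1 * (1 : ℝ)) (volume.prod μ) :=
      hKi.mul_prod (integrable_const (1 : ℝ))
    refine h1.mono' ?_ (ae_of_all _ fun z => ?_)
    · apply Measurable.aestronglyMeasurable
      refine Measurable.mul ?_ ?_
      · exact Complex.measurable_ofReal.comp (hKc.measurable.comp measurable_fst)
      · refine ex_cont.measurable.comp ?_
        exact ((hF.comp measurable_snd).const_mul _).mul measurable_fst
    · simp only [Function.uncurry]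
      rw [norm_mul, ex_norm, Complex.norm_real, Real.norm_of_nonneg (hK0 _)]
  have e : ∀ ξ : ℝ, (K ξ : ℂ) * ∫ w, ex (2 * Real.pi * F w * ξ) ∂μ =
      ∫ w, (K ξ : ℂ) * ex (2 * Real.pi * F w * ξ) ∂μ := fun ξ => (integral_const_mul _ _).symm
  simp only [e]
  refine ⟨hprod.integral_prod_left, ?_⟩
  rw [integral_integral_swap hprod]
  refine integral_congr_ae (ae_of_all _ fun w => ?_)
  exact (hinv (F w)).symm

include hKc hKi hK0 hinv in
theorem four_int (G : Finset ℕ) (y₁ y₂ z₁ z₂ l φ κ : ℝ) (hy : y₁ ≤ y₂) (hz : z₁ ≤ z₂) :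
    Integrable (fun ξ => (K ξ : ℂ) * (ex (2 * Real.pi * (l * φ) * ξ) *
      gs G (2 * Real.pi * (l * (1 - κ)) * ξ) *
      ii y₁ y₂ (2 * Real.pi * (l * κ) * ξ) * ii z₁ z₂ (2 * Real.pi * (-l) * ξ))) ∧
    ∫ ξ, (K ξ : ℂ) * (ex (2 * Real.pi * (l * φ) * ξ) * gs G (2 * Real.pi * (l * (1 - κ)) * ξ) *
      ii y₁ y₂ (2 * Real.pi * (l * κ) * ξ) * ii z₁ z₂ (2 * Real.pi * (-l) * ξ)) =
    ((∑ n ∈ G, ∫ w, tri (l * (φ + κ * Real.log w.1 + (1 - κ) * Real.log n - Real.log w.2))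
      ∂((volume.restrict (Set.Ioc y₁ y₂)).prod (volume.restrict (Set.Ioc z₁ z₂)) : Measure (ℝ × ℝ)) : ℝ) : ℂ) := by
  obtain ⟨μ, hμ⟩ : ∃ μ : Measure (ℝ × ℝ), μ =
    (volume.restrict (Set.Ioc y₁ y₂)).prod (volume.restrict (Set.Ioc z₁ z₂)) := ⟨_, rfl⟩
  haveI hfin : IsFiniteMeasure μ := by rw [hμ]; infer_instance
  have hFm : ∀ n : ℕ, Measurable fun w : ℝ × ℝ =>
      l * (φ + κ * Real.log w.1 + (1 - κ) * Real.log n - Real.log w.2) := by
    intro n
    fun_prop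
  have e : ∀ ξ : ℝ, (K ξ : ℂ) * (ex (2 * Real.pi * (l * φ) * ξ) * gs G (2 * Real.pi * (l * (1 - κ)) * ξ) *
      ii y₁ y₂ (2 * Real.pi * (l * κ) * ξ) * ii z₁ z₂ (2 * Real.pi * (-l) * ξ)) =
      ∑ n ∈ G, (K ξ : ℂ) * ∫ w, ex (2 * Real.pi *
        (l * (φ + κ * Real.log w.1 + (1 - κ) * Real.log n - Real.log w.2)) * ξ) ∂μ := by
    intro ξ
    have e1 : ii y₁ y₂ (2 * Real.pi * (l * κ) * ξ) * ii z₁ z₂ (2 * Real.pi * (-l) * ξ) =
        ∫ w, ex (2 * Real.pi * (l * κ) * ξ * Real.log w.1) * ex (2 * Real.pi * (-l) * ξ * Real.log w.2) ∂μ := by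
      unfold ii
      rw [intervalIntegral.integral_of_le hy, intervalIntegral.integral_of_le hz, hμ]
      exact (integral_prod_mul (fun x => ex (2 * Real.pi * (l * κ) * ξ * Real.log x))
        (fun x => ex (2 * Real.pi * (-l) * ξ * Real.log x))).symm
    rw [mul_assoc (ex _ * gs G _), e1]
    unfold gs
    rw [Finset.mul_sum, Finset.sum_mul, Finset.mul_sum]
    refine Finset.sum_congr rfl fun n _ => ?_
    rw [← integral_const_mul]
    congr 1
    refine integral_congr_ae (ae_of_all _ fun w => ?_)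
    simp only
    have e2 : 2 * Real.pi * (l * (φ + κ * Real.log w.1 + (1 - κ) * Real.log n - Real.log w.2)) * ξ =
        2 * Real.pi * (l * φ) * ξ + 2 * Real.pi * (l * (1 - κ)) * ξ * Real.log n +
        2 * Real.pi * (l * κ) * ξ * Real.log w.1 + 2 * Real.pi * (-l) * ξ * Real.log w.2 := by ring
    rw [e2, ex_add, ex_add, ex_add]
    ring
  have hf := fun n : ℕ => fub K hKc hKi hK0 hinv μ _ (hFm n)
  constructor
  · refine (integrable_finset_sum G fun n _ => (hf n).1).congr (ae_of_all _ fun ξ => ?_)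
    exact (e ξ).symm
  · rw [integral_congr_ae (ae_of_all _ e), integral_finset_sum _ fun n _ => (hf n).1]
    push_cast
    refine Finset.sum_congr rfl fun n _ => ?_
    rw [(hf n).2, hμ]
    exact integral_ofReal

end four

end Pool.Agent.D0H21.CC
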