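import Mathlib
import Pool.Agent.D0H21.CC.Cnt1

/-!
# CC, module CNT, part 2: the upper bound by the number of pairs, the main term, the error term
-/

set_option autoImplicit false
set_option linter.all false

open Filter Topology MeasureTheory Finset Pool.Agent.D0H61.CC

namespace Pool.Agent.D0H21.CC

theorem card_r (X N E : ℝ) (hN : 1 ≤ N) (hX : 0 < X) (hXN : X ≤ E * N) (Q : Finset ℕ)
    (h : ∀ r ∈ Q, 0 < r ∧ |Real.log X - Real.log r| ≤ 1 / N) : (Q.card : ℝ) ≤ 3 * E + 1 := by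
  obtain ⟨u, hu⟩ : ∃ u : ℝ, u = 1 / N := ⟨_, rfl⟩
  rw [← hu] at h
  have hN0 : 0 < N := by linarith
  have hu0 : 0 < u := by rw [hu]; positivity
  have hu1 : u ≤ 1 := by rw [hu, div_le_one hN0]; exact hN
  have huN : u * N = 1 := by rw [hu]; field_simp
  have ha : ∀ r ∈ Q, X * Real.exp (-u) ≤ r ∧ (r : ℝ) ≤ X * Real.exp u := by
    intro r hr
    obtain ⟨h1, h2⟩ := h r hr
    have hr0 : (0 : ℝ) < r := by exact_mod_cast h1
    rw [abs_le] at h2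
    constructor
    · calc X * Real.exp (-u) = Real.exp (Real.log X + -u) := by rw [Real.exp_add, Real.exp_log hX]
        _ ≤ Real.exp (Real.log r) := Real.exp_le_exp.2 (by linarith)
        _ = r := Real.exp_log hr0
    · calc (r : ℝ) = Real.exp (Real.log r) := (Real.exp_log hr0).symm
        _ ≤ Real.exp (Real.log X + u) := Real.exp_le_exp.2 (by linarith)
        _ = X * Real.exp u := by rw [Real.exp_add, Real.exp_log hX]
  have hsub : Q ⊆ Icc ⌈X * Real.exp (-u)⌉₊ ⌊X * Real.exp u⌋₊ := by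
    intro r hr
    rw [mem_Icc]
    exact ⟨Nat.ceil_le.2 (ha r hr).1, Nat.le_floor (ha r hr).2⟩
  have h1 := Finset.card_le_card hsub
  rw [Nat.card_Icc] at h1
  have h2 : Real.exp u ≤ 1 + 2 * u := by
    have := Real.abs_exp_sub_one_sub_id_le (x := u) (by rw [abs_of_pos hu0]; exact hu1)
    rw [abs_le] at this
    nlinarith [this.2]
  have h3 : 1 - u ≤ Real.exp (-u) := by
    have := Real.add_one_le_exp (-u)
    linarith
  have h4 : X * Real.exp u - X * Real.exp (-u) ≤ 3 * E := by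
    have : X * Real.exp u - X * Real.exp (-u) ≤ X * (3 * u) := by
      rw [← mul_sub]
      exact mul_le_mul_of_nonneg_left (by linarith) hX.le
    have h5 : X * (3 * u) ≤ E * N * (3 * u) := mul_le_mul_of_nonneg_right hXN (by positivity)
    have h6 : E * N * (3 * u) = 3 * E * (u * N) := by ring
    rw [huN] at h6
    linarith
  have h5 : ((⌊X * Real.exp u⌋₊ + 1 - ⌈X * Real.exp (-u)⌉₊ : ℕ) : ℝ) ≤ 3 * E + 1 := by
    have hfl : (⌊X * Real.exp u⌋₊ : ℝ) ≤ X * Real.exp u := Nat.floor_le (by positivity)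
    have hce : X * Real.exp (-u) ≤ ⌈X * Real.exp (-u)⌉₊ := Nat.le_ceil _
    rcases le_total (⌈X * Real.exp (-u)⌉₊) (⌊X * Real.exp u⌋₊ + 1) with hle | hle
    · rw [Nat.cast_sub hle]
      push_cast
      linarith
    · rw [Nat.sub_eq_zero_of_le hle]
      have : 0 < E := by
        by_contra hE
        push Not at hE
        nlinarith
      push_cast
      linarith
  exact (by exact_mod_cast h1 : (Q.card : ℝ) ≤ ((⌊X * Real.exp u⌋₊ + 1 - ⌈X * Real.exp (-u)⌉₊ : ℕ) : ℝ)).trans h5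

theorem mem_prs {y₁ y₂ : ℝ} {p : ℕ} : p ∈ prs y₁ y₂ ↔ (1 ≤ p ∧ p ≤ ⌊y₂⌋₊) ∧ p.Prime ∧ y₁ < p := by
  unfold prs
  rw [mem_filter, mem_Icc]

theorem S_upper (κ φ δ y₁ y₂ z₁ z₂ L E : ℝ) (N : ℕ) (G : Finset ℕ) (hN : 1 ≤ N) (hδ : 0 < δ) (hδ1 : δ ≤ 1)
    (hL : ∀ p ∈ prs y₁ y₂, Real.log p ≤ L) (hL' : ∀ r ∈ prs z₁ z₂, Real.log r ≤ L)
    (hX : ∀ n ∈ G, ∀ p ∈ prs y₁ y₂, Real.exp (φ + κ * Real.log p + (1 - κ) * Real.log n) ≤ E * N) :
    ∑ n ∈ G, ∑ p ∈ prs y₁ y₂, ∑ r ∈ prs z₁ z₂, Real.log p * Real.log r *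
      tri (N / δ * (φ + κ * Real.log p + (1 - κ) * Real.log n - Real.log r)) ≤
    L ^ 2 * (3 * E + 1) * (prsG κ φ δ y₁ y₂ N G).card := by
  classical
  have hN0 : (0 : ℝ) < N := by exact_mod_cast hN
  have hc : ((prsG κ φ δ y₁ y₂ N G).card : ℝ) = ∑ n ∈ G, ∑ p ∈ prs y₁ y₂,
      if (∃ r : ℕ, r.Prime ∧ |φ + κ * Real.log p + (1 - κ) * Real.log n - Real.log r| ≤ δ / N) then (1 : ℝ) else 0 := by
    unfold prsG
    rw [Finset.card_filter, Finset.sum_product]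
    push_cast
    rfl
  rw [hc, Finset.mul_sum]
  refine Finset.sum_le_sum fun n hn => ?_
  rw [Finset.mul_sum]
  refine Finset.sum_le_sum fun p hp => ?_
  have hlp : 0 ≤ Real.log p := Real.log_natCast_nonneg p
  have h1 : ∑ r ∈ prs z₁ z₂, Real.log p * Real.log r *
      tri (N / δ * (φ + κ * Real.log p + (1 - κ) * Real.log n - Real.log r)) ≤
      L ^ 2 * ((prs z₁ z₂).filter fun r : ℕ =>
        |φ + κ * Real.log p + (1 - κ) * Real.log n - Real.log r| ≤ δ / N).card := by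
    rw [Finset.card_filter]
    push_cast
    rw [Finset.mul_sum]
    refine Finset.sum_le_sum fun r hr => ?_
    have hlr : 0 ≤ Real.log r := Real.log_natCast_nonneg r
    split_ifs with h
    · rw [mul_one]
      calc Real.log p * Real.log r * tri (N / δ * (φ + κ * Real.log p + (1 - κ) * Real.log n - Real.log r)) ≤
          Real.log p * Real.log r * 1 := mul_le_mul_of_nonneg_left (tri_le_one _) (by positivity)
        _ ≤ L * L * 1 := by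
          rw [mul_one, mul_one]
          exact mul_le_mul (hL p hp) (hL' r hr) hlr (hlp.trans (hL p hp))
        _ = L ^ 2 := by ring
    · rw [tri_eq_zero, mul_zero, mul_zero]
      push Not at h
      rw [abs_mul, abs_of_pos (by positivity)]
      rw [div_lt_iff₀ hN0] at h
      rw [div_mul_eq_mul_div, le_div_iff₀ hδ]
      linarith
  refine h1.trans ?_
  rw [mul_assoc]
  refine mul_le_mul_of_nonneg_left ?_ (sq_nonneg L)
  split_ifs with h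
  · rw [mul_one]
    refine card_r (Real.exp (φ + κ * Real.log p + (1 - κ) * Real.log n)) N E (by exact_mod_cast hN)
      (Real.exp_pos _) (hX n hn p hp) _ fun r hr => ?_
    rw [mem_filter, mem_prs] at hr
    refine ⟨hr.1.1.1, ?_⟩
    rw [Real.log_exp]
    refine hr.2.trans ?_
    exact div_le_div_of_nonneg_right hδ1 hN0.le
  · rw [mul_zero, Finset.filter_eq_empty_iff.2, card_empty]
    · simp
    · intro r hr h2
      exact h ⟨r, (mem_prs.1 hr).2.1, h2⟩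

theorem M_lower (κ φ l y₁ y₂ z₁ z₂ : ℝ) (n : ℕ) (hl : 1 ≤ l) (hy : y₁ ≤ y₂) (hz : 0 < z₁)
    (hX : ∀ x ∈ Set.Ioc y₁ y₂, 2 * z₁ ≤ Real.exp (φ + κ * Real.log x + (1 - κ) * Real.log n) ∧
      Real.exp (φ + κ * Real.log x + (1 - κ) * Real.log n) ≤ z₂) :
    (y₂ - y₁) * (z₁ / (4 * l)) ≤ ∫ w, tri (l * (φ + κ * Real.log w.1 + (1 - κ) * Real.log n - Real.log w.2))
      ∂((volume.restrict (Set.Ioc y₁ y₂)).prod (volume.restrict (Set.Ioc z₁ z₂)) : Measure (ℝ × ℝ)) := by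
  have hl0 : 0 < l := by linarith
  have hF : Measurable fun w : ℝ × ℝ =>
      tri (l * (φ + κ * Real.log w.1 + (1 - κ) * Real.log n - Real.log w.2)) :=
    tri_cont.measurable.comp (by fun_prop)
  have hint : Integrable (fun w : ℝ × ℝ =>
      tri (l * (φ + κ * Real.log w.1 + (1 - κ) * Real.log n - Real.log w.2)))
      ((volume.restrict (Set.Ioc y₁ y₂)).prod (volume.restrict (Set.Ioc z₁ z₂))) := by
    refine (integrable_const (1 : ℝ)).mono' hF.aestronglyMeasurable (ae_of_all _ fun w => ?_)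
    rw [Real.norm_of_nonneg (tri_nonneg _)]
    exact tri_le_one _
  rw [integral_prod _ hint]
  have hc : (y₂ - y₁) * (z₁ / (4 * l)) = ∫ x in Set.Ioc y₁ y₂, z₁ / (4 * l) := by
    rw [setIntegral_const, smul_eq_mul, Measure.real, Real.volume_Ioc, ENNReal.toReal_ofReal (by linarith)]
  rw [hc]
  refine setIntegral_mono_on ?_ hint.integral_prod_left measurableSet_Ioc fun x hx => ?_
  · exact integrable_const _
  obtain ⟨X, hXd⟩ : ∃ X : ℝ, X = Real.exp (φ + κ * Real.log x + (1 - κ) * Real.log n) := ⟨_, rfl⟩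
  have hXx := hX x hx
  rw [← hXd] at hXx
  obtain ⟨hX1, hX2⟩ := hXx
  have hX0 : 0 < X := by linarith
  have hlX : φ + κ * Real.log x + (1 - κ) * Real.log n = Real.log X := by rw [hXd, Real.log_exp]
  simp only [hlX]
  obtain ⟨u, hu⟩ : ∃ u : ℝ, u = 1 / (2 * l) := ⟨_, rfl⟩
  have hu0 : 0 < u := by rw [hu]; positivity
  have hul : l * u = 1 / 2 := by rw [hu]; field_simp
  have hu1 : u ≤ 1 / 2 := by nlinarith
  obtain ⟨a, ha⟩ : ∃ a : ℝ, a = X * Real.exp (-u) := ⟨_, rfl⟩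
  have ha0 : 0 < a := by rw [ha]; positivity
  have haX : a ≤ X := by
    rw [ha]
    have : Real.exp (-u) ≤ 1 := Real.exp_le_one_iff.2 (by linarith)
    nlinarith
  have h1u : 1 - u ≤ Real.exp (-u) := by
    have := Real.add_one_le_exp (-u)
    linarith
  have hza : z₁ ≤ a := by
    rw [ha]
    nlinarith
  have hlen : X * (u / 2) ≤ X - a := by
    rw [ha]
    have h2 : Real.exp (-u) ≤ 1 - u + u ^ 2 := by
      have := Real.abs_exp_sub_one_sub_id_le (x := -u) (by rw [abs_neg, abs_of_pos hu0]; linarith)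
      rw [abs_le] at this
      nlinarith [this.2]
    have h3 : u / 2 ≤ 1 - Real.exp (-u) := by nlinarith
    nlinarith
  have hsub : Set.Ioc a X ⊆ Set.Ioc z₁ z₂ := Set.Ioc_subset_Ioc hza hX2
  have hin : IntegrableOn (fun y : ℝ => tri (l * (Real.log X - Real.log y))) (Set.Ioc z₁ z₂) := by
    refine Measure.integrableOn_of_bounded (M := 1) (by simp) ?_ (ae_of_all _ fun y => ?_)
    · exact (tri_cont.measurable.comp (by fun_prop)).aestronglyMeasurable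
    · rw [Real.norm_of_nonneg (tri_nonneg _)]
      exact tri_le_one _
  calc z₁ / (4 * l) ≤ (X - a) * (1 / 2) := by
        have : z₁ / (4 * l) = z₁ * (u / 2) := by rw [hu]; ring
        rw [this]
        nlinarith
    _ = ∫ y in Set.Ioc a X, (1 / 2 : ℝ) := by
        rw [setIntegral_const, smul_eq_mul, Measure.real, Real.volume_Ioc, ENNReal.toReal_ofReal (by linarith)]
    _ ≤ ∫ y in Set.Ioc a X, tri (l * (Real.log X - Real.log y)) := by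
        refine setIntegral_mono_on ?_ (hin.mono_set hsub) measurableSet_Ioc fun y hy => ?_
        · exact integrable_const _
        apply tri_ge_half
        have hy0 : 0 < y := ha0.trans hy.1
        have h1 : Real.log y ≤ Real.log X := Real.log_le_log hy0 hy.2
        have h2 : Real.log X - u ≤ Real.log y := by
          have : Real.log a ≤ Real.log y := Real.log_le_log ha0 hy.1.le
          rw [ha, Real.log_mul hX0.ne' (Real.exp_pos _).ne', Real.log_exp] at this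
          linarith
        rw [abs_of_nonneg (mul_nonneg hl0.le (by linarith))]
        calc l * (Real.log X - Real.log y) ≤ l * u := mul_le_mul_of_nonneg_left (by linarith) hl0.le
          _ = 1 / 2 := hul
    _ ≤ ∫ y in Set.Ioc z₁ z₂, tri (l * (Real.log X - Real.log y)) := by
        refine setIntegral_mono_set hin (ae_of_all _ fun y => tri_nonneg _) ?_
        exact HasSubset.Subset.eventuallyLE hsub

theorem int_lor (a : ℝ) (ha : 0 < a) : Integrable (fun ξ : ℝ => (1 + (a * ξ) ^ 2)⁻¹) ∧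
    ∫ ξ : ℝ, (1 + (a * ξ) ^ 2)⁻¹ = Real.pi / a := by
  constructor
  · exact integrable_inv_one_add_sq.comp_mul_left' ha.ne'
  · rw [Measure.integral_comp_mul_left (fun x : ℝ => (1 + x ^ 2)⁻¹) a, integral_univ_inv_one_add_sq,
      abs_of_pos (inv_pos.2 ha), smul_eq_mul]
    ring

theorem ii_cont (y₁ y₂ : ℝ) (h : y₁ ≤ y₂) : Continuous (ii y₁ y₂) := by
  have e : ii y₁ y₂ = fun τ => ∫ x in Set.Ioc y₁ y₂, ex (τ * Real.log x) := by
    funext τ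
    unfold ii
    rw [intervalIntegral.integral_of_le h]
  rw [e]
  refine continuous_of_dominated (bound := fun _ => (1 : ℝ)) ?_ ?_ ?_ ?_
  · intro τ
    exact (ex_cont.measurable.comp (by fun_prop)).aestronglyMeasurable
  · intro τ
    exact ae_of_all _ fun x => (ex_norm _).le
  · exact integrable_const _
  · exact ae_of_all _ fun x => ex_cont.comp (by fun_prop)

theorem err_gen (K : ℝ → ℝ) (hKc : Continuous K) (hKi : Integrable K) (hK0 : ∀ ξ, 0 ≤ K ξ)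
    (hK1 : ∀ ξ, ξ ^ 2 * K ξ ≤ 1) (e g P₁ P₂ I₁ I₂ : ℝ → ℂ) (he : Continuous e) (hg : Continuous g)
    (hP₁ : Continuous P₁) (hP₂ : Continuous P₂) (hI₁ : Continuous I₁) (hI₂ : Continuous I₂)
    (b T ε s : ℝ) (hT : 0 < T) (hε : 0 ≤ ε) (hs : 0 < s) (he1 : ∀ ξ, ‖e ξ‖ ≤ 1) (hgb : ∀ ξ, ‖g ξ‖ ≤ b)
    (hP₁b : ∀ ξ, ‖P₁ ξ‖ ≤ b ^ 2) (hP₂b : ∀ ξ, ‖P₂ ξ‖ ≤ b ^ 2) (hI₁b : ∀ ξ, ‖I₁ ξ‖ ≤ b ^ 2)
    (hI₂b : ∀ ξ, ‖I₂ ξ‖ ≤ b ^ 2) (h₁ : ∀ ξ, |ξ| ≤ T → ‖P₁ ξ - I₁ ξ‖ ≤ ε) (h₂ : ∀ ξ, |ξ| ≤ T → ‖P₂ ξ - I₂ ξ‖ ≤ ε) :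
    ‖(∫ ξ, (K ξ : ℂ) * (e ξ * g ξ * P₁ ξ * P₂ ξ)) - ∫ ξ, (K ξ : ℂ) * (e ξ * g ξ * I₁ ξ * I₂ ξ)‖ ≤
      ε * (s * (∫ ξ, K ξ * ‖g ξ‖ ^ 2) + ((∫ ξ, K ξ * ‖P₂ ξ‖ ^ 2) + ∫ ξ, K ξ * ‖I₁ ξ‖ ^ 2) / s) +
        4 * b ^ 5 * Real.pi / T := by
  have hb0 : 0 ≤ b := (norm_nonneg _).trans (hgb 0)
  have hbd : ∀ (A B : ℝ → ℂ), (∀ ξ, ‖A ξ‖ ≤ b ^ 2) → (∀ ξ, ‖B ξ‖ ≤ b ^ 2) → ∀ ξ,
      ‖e ξ * g ξ * A ξ * B ξ‖ ≤ b ^ 5 := by
    intro A B hA hB ξ
    rw [norm_mul, norm_mul, norm_mul]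
    calc ‖e ξ‖ * ‖g ξ‖ * ‖A ξ‖ * ‖B ξ‖ ≤ 1 * b * b ^ 2 * b ^ 2 := by
          gcongr
          · exact he1 ξ
          · exact hgb ξ
          · exact hA ξ
          · exact hB ξ
      _ = b ^ 5 := by ring
  have hi₁ : Integrable fun ξ => (K ξ : ℂ) * (e ξ * g ξ * P₁ ξ * P₂ ξ) :=
    int_of_bd K hKc hKi hK0 _ (((he.mul hg).mul hP₁).mul hP₂) (b ^ 5) (hbd _ _ hP₁b hP₂b)
  have hi₂ : Integrable fun ξ => (K ξ : ℂ) * (e ξ * g ξ * I₁ ξ * I₂ ξ) :=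
    int_of_bd K hKc hKi hK0 _ (((he.mul hg).mul hI₁).mul hI₂) (b ^ 5) (hbd _ _ hI₁b hI₂b)
  have hig := int_sq K hKc hKi hK0 g hg b hgb
  have hiP := int_sq K hKc hKi hK0 P₂ hP₂ (b ^ 2) hP₂b
  have hiI := int_sq K hKc hKi hK0 I₁ hI₁ (b ^ 2) hI₁b
  obtain ⟨hlor, hlor'⟩ := int_lor T⁻¹ (inv_pos.2 hT)
  rw [← integral_sub hi₁ hi₂]
  have hdom : Integrable fun ξ : ℝ => ε * (s * (K ξ * ‖g ξ‖ ^ 2) +
      (K ξ * ‖P₂ ξ‖ ^ 2 + K ξ * ‖I₁ ξ‖ ^ 2) / s) + 4 * b ^ 5 / T ^ 2 * (1 + (T⁻¹ * ξ) ^ 2)⁻¹ :=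
    (((hig.const_mul s).add ((hiP.add hiI).div_const s)).const_mul ε).add (hlor.const_mul _)
  refine (norm_integral_le_of_norm_le hdom (ae_of_all _ fun ξ => ?_)).trans (le_of_eq ?_)
  · have hK := hK0 ξ
    rw [← mul_sub, norm_mul, Complex.norm_real, Real.norm_of_nonneg hK]
    rcases le_or_gt |ξ| T with hξ | hξ
    · have hnn : 0 ≤ 4 * b ^ 5 / T ^ 2 * (1 + (T⁻¹ * ξ) ^ 2)⁻¹ := by positivity
      refine le_add_of_le_of_nonneg ?_ hnn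
      have e1 : e ξ * g ξ * P₁ ξ * P₂ ξ - e ξ * g ξ * I₁ ξ * I₂ ξ =
          e ξ * g ξ * ((P₁ ξ - I₁ ξ) * P₂ ξ + I₁ ξ * (P₂ ξ - I₂ ξ)) := by ring
      have e2 : ‖e ξ * g ξ * P₁ ξ * P₂ ξ - e ξ * g ξ * I₁ ξ * I₂ ξ‖ ≤
          ‖g ξ‖ * (ε * ‖P₂ ξ‖ + ‖I₁ ξ‖ * ε) := by
        rw [e1, norm_mul, norm_mul]
        have h3 : ‖(P₁ ξ - I₁ ξ) * P₂ ξ + I₁ ξ * (P₂ ξ - I₂ ξ)‖ ≤ ε * ‖P₂ ξ‖ + ‖I₁ ξ‖ * ε := by
          refine (norm_add_le _ _).trans ?_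
          rw [norm_mul, norm_mul]
          gcongr
          · exact h₁ ξ hξ
          · exact h₂ ξ hξ
        calc ‖e ξ‖ * ‖g ξ‖ * ‖(P₁ ξ - I₁ ξ) * P₂ ξ + I₁ ξ * (P₂ ξ - I₂ ξ)‖ ≤
            1 * ‖g ξ‖ * (ε * ‖P₂ ξ‖ + ‖I₁ ξ‖ * ε) := by
              gcongr
              exact he1 ξ
          _ = _ := by ring
      have e3 : ‖g ξ‖ * (‖P₂ ξ‖ + ‖I₁ ξ‖) ≤ s * ‖g ξ‖ ^ 2 + (‖P₂ ξ‖ ^ 2 + ‖I₁ ξ‖ ^ 2) / s := by
        have h4 : (‖P₂ ξ‖ ^ 2 + ‖I₁ ξ‖ ^ 2) / s = s * ((‖P₂ ξ‖ / s) ^ 2 + (‖I₁ ξ‖ / s) ^ 2) := by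
          field_simp
        have h5 : ‖g ξ‖ * (‖P₂ ξ‖ + ‖I₁ ξ‖) = s * (‖g ξ‖ * (‖P₂ ξ‖ / s + ‖I₁ ξ‖ / s)) := by
          field_simp
        rw [h4, h5, ← mul_add]
        refine mul_le_mul_of_nonneg_left ?_ hs.le
        nlinarith [sq_nonneg (‖g ξ‖ - 2 * (‖P₂ ξ‖ / s)), sq_nonneg (‖g ξ‖ - 2 * (‖I₁ ξ‖ / s)),
          sq_nonneg (‖g ξ‖ - (‖P₂ ξ‖ / s) - (‖I₁ ξ‖ / s)), sq_nonneg (‖P₂ ξ‖ / s - ‖I₁ ξ‖ / s)]
      calc K ξ * ‖e ξ * g ξ * P₁ ξ * P₂ ξ - e ξ * g ξ * I₁ ξ * I₂ ξ‖ ≤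
          K ξ * (‖g ξ‖ * (ε * ‖P₂ ξ‖ + ‖I₁ ξ‖ * ε)) := mul_le_mul_of_nonneg_left e2 hK
        _ = K ξ * ε * (‖g ξ‖ * (‖P₂ ξ‖ + ‖I₁ ξ‖)) := by ring
        _ ≤ K ξ * ε * (s * ‖g ξ‖ ^ 2 + (‖P₂ ξ‖ ^ 2 + ‖I₁ ξ‖ ^ 2) / s) :=
          mul_le_mul_of_nonneg_left e3 (mul_nonneg hK hε)
        _ = _ := by ring
    · have hnn : 0 ≤ ε * (s * (K ξ * ‖g ξ‖ ^ 2) + (K ξ * ‖P₂ ξ‖ ^ 2 + K ξ * ‖I₁ ξ‖ ^ 2) / s) := by
        positivity
      refine le_add_of_nonneg_of_le hnn ?_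
      have hξ0 : 0 < ξ ^ 2 := by
        have : 0 < |ξ| := hT.trans hξ
        rw [← sq_abs]
        positivity
      have hξT : T ^ 2 ≤ ξ ^ 2 := by
        rw [← sq_abs ξ]
        exact pow_le_pow_left₀ hT.le hξ.le 2
      have e4 : K ξ ≤ 2 / T ^ 2 * (1 + (T⁻¹ * ξ) ^ 2)⁻¹ := by
        have h6 : 2 / T ^ 2 * (1 + (T⁻¹ * ξ) ^ 2)⁻¹ = 2 / (T ^ 2 + ξ ^ 2) := by
          field_simp
        rw [h6, le_div_iff₀ (by positivity)]
        nlinarith [hK1 ξ]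
      have e5 : ‖e ξ * g ξ * P₁ ξ * P₂ ξ - e ξ * g ξ * I₁ ξ * I₂ ξ‖ ≤ 2 * b ^ 5 := by
        refine (norm_sub_le _ _).trans ?_
        have := hbd _ _ hP₁b hP₂b ξ
        have := hbd _ _ hI₁b hI₂b ξ
        linarith
      calc K ξ * ‖e ξ * g ξ * P₁ ξ * P₂ ξ - e ξ * g ξ * I₁ ξ * I₂ ξ‖ ≤
          2 / T ^ 2 * (1 + (T⁻¹ * ξ) ^ 2)⁻¹ * (2 * b ^ 5) :=
            mul_le_mul e4 e5 (norm_nonneg _) (by positivity)
        _ = _ := by ring
  · have j1 : Integrable (fun ξ => s * (K ξ * ‖g ξ‖ ^ 2)) := hig.const_mul s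
    have j2 : Integrable (fun ξ => (K ξ * ‖P₂ ξ‖ ^ 2 + K ξ * ‖I₁ ξ‖ ^ 2) / s) := (hiP.add hiI).div_const s
    have j3 : Integrable (fun ξ => ε * (s * (K ξ * ‖g ξ‖ ^ 2) +
      (K ξ * ‖P₂ ξ‖ ^ 2 + K ξ * ‖I₁ ξ‖ ^ 2) / s)) := (j1.add j2).const_mul ε
    rw [integral_add j3 (hlor.const_mul _), integral_const_mul, integral_const_mul, hlor',
      integral_add j1 j2, integral_const_mul, integral_div, integral_add hiP hiI]
    congr 1
    field_simp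

end Pool.Agent.D0H21.CC
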