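import Mathlib
import Pool.Agent.D0H21.CC.Cnt2

/-!
# CC, module CNT: the number of pairs
-/

set_option autoImplicit false
set_option linter.all false

open Filter Topology MeasureTheory Finset Pool.Agent.D0H61.CC

namespace Pool.Agent.D0H21.CC

theorem kmax_ex (K : ℝ → ℝ) (hKc : Continuous K) (hK1 : ∀ ξ, ξ ^ 2 * K ξ ≤ 1) :
    ∃ k : ℝ, 0 < k ∧ ∀ ξ, K ξ ≤ k := by
  obtain ⟨k, hk⟩ := (isCompact_Icc (a := (-1 : ℝ)) (b := 1)).exists_bound_of_continuousOn hKc.continuousOn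
  refine ⟨max k 1, lt_max_of_lt_right zero_lt_one, fun ξ => ?_⟩
  by_cases h : ξ ∈ Set.Icc (-1 : ℝ) 1
  · exact ((le_abs_self _).trans (hk ξ h)).trans (le_max_left _ _)
  · refine le_trans ?_ (le_max_right _ _)
    have h1 : 1 ≤ ξ ^ 2 := by
      rw [Set.mem_Icc, not_and_or] at h
      rcases h with h | h
      · push Not at h
        nlinarith
      · push Not at h
        nlinarith
    by_contra h2
    push Not at h2
    nlinarith [hK1 ξ]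

theorem num_err (N Λ g c₁ c₂ c₃ A₁ A₂ A₃ : ℝ) (C : ℕ) (hN : 0 < N) (hΛ : 1 ≤ Λ) (hg : 0 ≤ g)
    (hc₂ : 0 ≤ c₂) (hc₃ : 0 ≤ c₃) (hgN : N ≤ g * Λ ^ C) (hΛN : Λ ^ (C + 1) ≤ N)
    (hA₁ : A₁ ≤ g * c₁) (hA₂ : A₂ ≤ c₂ * N * Λ ^ 2) (hA₃ : A₃ ≤ c₃ * N) :
    N / Λ ^ (C + 4) * (Λ ^ (C + 3) * A₁ + (A₂ + A₃) / Λ ^ (C + 3)) + 4 * Real.pi * N ≤
      (c₁ + c₂ + c₃ + 4 * Real.pi) * (N * g / Λ) := by
  have hΛ0 : 0 < Λ := by linarith
  have hpi := Real.pi_pos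
  have h1 : N / Λ ^ (C + 4) * (Λ ^ (C + 3) * A₁) ≤ c₁ * (N * g / Λ) := by
    have e : N / Λ ^ (C + 4) * (Λ ^ (C + 3) * A₁) = N / Λ * A₁ := by
      field_simp
      ring
    rw [e]
    calc N / Λ * A₁ ≤ N / Λ * (g * c₁) := mul_le_mul_of_nonneg_left hA₁ (by positivity)
      _ = _ := by ring
  have hNg : 0 ≤ N * g / Λ := by positivity
  have h2 : N / Λ ^ (C + 4) * ((A₂ + A₃) / Λ ^ (C + 3)) ≤ (c₂ + c₃) * (N * g / Λ) := by
    have e1 : A₂ + A₃ ≤ (c₂ + c₃) * (g * Λ ^ C) * Λ ^ 2 := by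
      have h3 : A₂ + A₃ ≤ (c₂ + c₃) * N * Λ ^ 2 := by
        have : c₃ * N ≤ c₃ * N * Λ ^ 2 := by
          have h4 : 1 ≤ Λ ^ 2 := one_le_pow₀ hΛ
          have h5 : 0 ≤ c₃ * N := by positivity
          nlinarith
        nlinarith
      refine h3.trans ?_
      have h6 : (c₂ + c₃) * N ≤ (c₂ + c₃) * (g * Λ ^ C) := mul_le_mul_of_nonneg_left hgN (by positivity)
      exact mul_le_mul_of_nonneg_right h6 (by positivity)
    calc N / Λ ^ (C + 4) * ((A₂ + A₃) / Λ ^ (C + 3)) ≤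
        N / Λ ^ (C + 4) * (((c₂ + c₃) * (g * Λ ^ C) * Λ ^ 2) / Λ ^ (C + 3)) := by gcongr
      _ = (c₂ + c₃) * (N * g / Λ) * (1 / Λ ^ (C + 4)) := by
        field_simp
        ring
      _ ≤ (c₂ + c₃) * (N * g / Λ) * 1 := by
        refine mul_le_mul_of_nonneg_left ?_ (by positivity)
        rw [div_le_one (by positivity)]
        exact one_le_pow₀ hΛ
      _ = _ := by ring
  have h3 : N ≤ N * g / Λ := by
    rw [le_div_iff₀ hΛ0]
    refine mul_le_mul_of_nonneg_left ?_ hN.le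
    have h4 : Λ ^ C * Λ ≤ Λ ^ C * g := by
      calc Λ ^ C * Λ = Λ ^ (C + 1) := by ring
        _ ≤ N := hΛN
        _ ≤ g * Λ ^ C := hgN
        _ = _ := by ring
    exact le_of_mul_le_mul_left h4 (by positivity)
  have h4 : 4 * Real.pi * N ≤ 4 * Real.pi * (N * g / Λ) := mul_le_mul_of_nonneg_left h3 (by positivity)
  calc N / Λ ^ (C + 4) * (Λ ^ (C + 3) * A₁ + (A₂ + A₃) / Λ ^ (C + 3)) + 4 * Real.pi * N =
      N / Λ ^ (C + 4) * (Λ ^ (C + 3) * A₁) + N / Λ ^ (C + 4) * ((A₂ + A₃) / Λ ^ (C + 3)) +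
        4 * Real.pi * N := by ring
    _ ≤ c₁ * (N * g / Λ) + (c₂ + c₃) * (N * g / Λ) + 4 * Real.pi * (N * g / Λ) := by linarith
    _ = _ := by ring

theorem ev_nat {P : ℝ → Prop} (h : ∀ᶠ x : ℝ in atTop, P x) : ∀ᶠ N : ℕ in atTop, P (N : ℝ) :=
  tendsto_natCast_atTop_atTop.eventually h

theorem ev_log (c : ℝ) (hc : 0 < c) (k : ℕ) : ∀ᶠ x : ℝ in atTop, Real.log x ^ k ≤ c * x := by
  have h := (Real.isLittleO_pow_log_id_atTop (n := k)).def hc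
  filter_upwards [h, eventually_ge_atTop 1] with x hx hx1
  rw [Real.norm_of_nonneg (pow_nonneg (Real.log_nonneg hx1) _), id, Real.norm_of_nonneg (by linarith)] at hx
  exact hx

theorem freq (m N ξ : ℝ) (h1 : 2 * Real.pi * |m| ≤ N ^ 2) (hξ : |ξ| ≤ N ^ 4) :
    |2 * Real.pi * m * ξ| ≤ N ^ 6 := by
  rw [abs_mul, abs_mul, abs_of_pos (by positivity : 0 < 2 * Real.pi)]
  calc 2 * Real.pi * |m| * |ξ| ≤ N ^ 2 * N ^ 4 := mul_le_mul h1 hξ (abs_nonneg _) (by positivity)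
    _ = _ := by ring

theorem aux1 (R N : ℝ) (hR : 1 ≤ R) (hN : 0 ≤ N) : N ≤ R * N * R := by
  have h : 1 ≤ R * R := by nlinarith
  have h2 : 1 * N ≤ R * R * N := mul_le_mul_of_nonneg_right h hN
  linarith

theorem fin1 (c R₃ η δ N Λ g y : ℝ) (hR₃ : 0 < R₃) (hN : 0 ≤ N) (hΛ : 0 < Λ) (hg : 0 ≤ g) (hδ : 0 ≤ δ)
    (h1 : c * 8 * R₃ ≤ Λ * (η * δ)) (hy : η * N ≤ y) : c * (N * g / Λ) ≤ g * (y * (δ / (8 * R₃))) := by
  have h2 : c ≤ Λ * (η * δ) / (8 * R₃) := by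
    rw [le_div_iff₀ (by positivity)]
    linarith
  calc c * (N * g / Λ) ≤ Λ * (η * δ) / (8 * R₃) * (N * g / Λ) := mul_le_mul_of_nonneg_right h2 (by positivity)
    _ = g * ((η * N) * (δ / (8 * R₃))) := by field_simp
    _ ≤ _ := by gcongr

theorem fin2 (E R₃ δ y g Λ P : ℝ) (hR₃ : 0 < R₃) (hE : 0 < E) (hΛ : 0 < Λ)
    (h : g * (y * (δ / (8 * R₃))) ≤ (2 * Λ) ^ 2 * (3 * E + 1) * P) :
    1 / (32 * R₃ * (3 * E + 1)) * δ * y * g / Λ ^ 2 ≤ P := by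
  rw [div_le_iff₀ (by positivity)]
  have e3 : 1 / (32 * R₃ * (3 * E + 1)) * δ * y * g = (g * (y * (δ / (8 * R₃)))) / (4 * (3 * E + 1)) := by
    field_simp
    ring
  rw [e3, div_le_iff₀ (by positivity)]
  calc g * (y * (δ / (8 * R₃))) ≤ (2 * Λ) ^ 2 * (3 * E + 1) * P := h
    _ = _ := by ring

theorem fin3 (R₃ δ y g M S e : ℝ) (hR₃ : 0 < R₃) (hM : g * (y * (δ / (4 * R₃))) ≤ M) (h : |S - M| ≤ e)
    (he : e ≤ g * (y * (δ / (8 * R₃)))) : g * (y * (δ / (8 * R₃))) ≤ S := by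
  rw [abs_le] at h
  have e : g * (y * (δ / (4 * R₃))) = 2 * (g * (y * (δ / (8 * R₃)))) := by
    field_simp
    ring
  rw [e] at hM
  linarith [h.1]

theorem t_CNT (hTRI : S_TRI) (hMS : S_MS) (hZP : S_ZP) : S_CNT := by
  obtain ⟨K, hKc, hKi, hK0, hK1, hinv⟩ := hTRI
  intro κ hκ0 hκ1 R hR
  obtain ⟨kmax, hk0, hk⟩ := kmax_ex K hKc hK1
  obtain ⟨B, hB⟩ : ∃ B : ℝ, B = R + |κ| * R + |1 - κ| := ⟨_, rfl⟩
  obtain ⟨E, hE⟩ : ∃ E : ℝ, E = Real.exp B := ⟨_, rfl⟩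
  obtain ⟨R₃, hR₃⟩ : ∃ R₃ : ℝ, R₃ = 2 * E := ⟨_, rfl⟩
  have hB1 : R ≤ B := by
    rw [hB]
    have := mul_nonneg (abs_nonneg κ) (by linarith : 0 ≤ R)
    have := abs_nonneg (1 - κ)
    linarith
  have hE1 : B + 1 ≤ E := by
    rw [hE]
    exact Real.add_one_le_exp B
  have hE0 : 0 < E := by rw [hE]; exact Real.exp_pos _
  have hR₃R : R ≤ R₃ := by rw [hR₃]; linarith
  have hR₃1 : 1 ≤ R₃ := hR.trans hR₃R
  have hR₃0 : 0 < R₃ := by linarith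
  have hR0 : 0 < R := by linarith
  have hκa : 0 < |κ| := abs_pos.2 hκ0
  have hκ1' : 1 - κ ≠ 0 := fun h => hκ1 (by linarith)
  have hκb : 0 < |1 - κ| := abs_pos.2 hκ1'
  have hpi := Real.pi_pos
  refine ⟨1 / (32 * R₃ * (3 * E + 1)), by positivity, ?_⟩
  intro C δ η hδ hδ1 hη
  obtain ⟨c₁, hc₁⟩ : ∃ c₁ : ℝ, c₁ = 4 / |1 - κ| + 1 := ⟨_, rfl⟩
  obtain ⟨c₂, hc₂⟩ : ∃ c₂ : ℝ, c₂ = 4 * R₃ * (2 * R₃ + 1) := ⟨_, rfl⟩
  obtain ⟨c₃, hc₃⟩ : ∃ c₃ : ℝ, c₃ = 2 * kmax * R ^ 2 / |κ| := ⟨_, rfl⟩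
  have hc₁0 : 0 ≤ c₁ := by rw [hc₁]; positivity
  have hc₂0 : 0 ≤ c₂ := by rw [hc₂]; positivity
  have hc₃0 : 0 ≤ c₃ := by rw [hc₃]; positivity
  obtain ⟨c, hc⟩ : ∃ c : ℝ, c = c₁ + c₂ + c₃ + 4 * Real.pi := ⟨_, rfl⟩
  have hc0 : 0 < c := by rw [hc]; positivity
  have E1 := ev_nat (eventually_ge_atTop R₃)
  have E2 := hZP R hR 6 (C + 4)
  have E2' := hZP R₃ hR₃1 6 (C + 4)
  have E3 := ev_nat (eventually_ge_atTop (2 * Real.pi * |κ| / δ))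
  have E3' := ev_nat (eventually_ge_atTop (2 * Real.pi / δ))
  have E4 := ev_nat (ev_log (1 / (2 * R₃)) (by positivity) 1)
  have E5 := ev_nat (ev_log 1 one_pos (C + 1))
  have E6 := ev_nat (Real.tendsto_log_atTop.eventually (eventually_ge_atTop (1 : ℝ)))
  have E7 := ev_nat (Real.tendsto_log_atTop.eventually (eventually_ge_atTop (c * 8 * R₃ / (η * δ))))
  filter_upwards [E1, E2, E2', E3, E3', E4, E5, E6, E7, eventually_ge_atTop 1] with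
    N hN1 hz hz' hN3 hN3' hN4 hN5 hN6 hN7 hN0 G hG hGN φ y₁ y₂ hφ hy₁ hy₁₂ hy₂
  have hNn : (1 : ℝ) ≤ N := by exact_mod_cast hN0
  have hNp : (0 : ℝ) < N := by linarith
  obtain ⟨Λ, hΛ⟩ : ∃ Λ : ℝ, Λ = Real.log N := ⟨_, rfl⟩
  rw [← hΛ] at hz hz' hN4 hN5 hN6 hN7 hGN
  obtain ⟨l, hl⟩ : ∃ l : ℝ, l = N / δ := ⟨_, rfl⟩
  obtain ⟨z₁, hz₁⟩ : ∃ z₁ : ℝ, z₁ = N / R₃ := ⟨_, rfl⟩
  obtain ⟨z₂, hz₂⟩ : ∃ z₂ : ℝ, z₂ = R₃ * N := ⟨_, rfl⟩
  have hlN : (N : ℝ) ≤ l := by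
    rw [hl, le_div_iff₀ hδ]
    exact mul_le_of_le_one_right hNp.le hδ1
  have hl0 : 0 < l := by linarith
  have hl1 : 1 ≤ l := by linarith
  have hy₁0 : 0 < y₁ := lt_of_lt_of_le (by positivity) hy₁
  have hηN : 0 < η * N := by positivity
  have hy : y₁ ≤ y₂ := by linarith
  have hz₁0 : 0 < z₁ := by rw [hz₁]; positivity
  have hz₁₂ : z₁ ≤ z₂ := by
    rw [hz₁, hz₂, div_le_iff₀ hR₃0]
    exact aux1 R₃ N hR₃1 hNp.le
  have hRN : R * N ≤ R₃ * N := mul_le_mul_of_nonneg_right hR₃R hNp.le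
  have hΛ0 : 0 < Λ := by linarith
  -- logarithms
  have hlogRN : Real.log (R₃ * N) ≤ 2 * Λ := by
    rw [Real.log_mul hR₃0.ne' hNp.ne', ← hΛ]
    have := Real.log_le_log hR₃0 hN1
    rw [← hΛ] at this
    linarith
  have hlogy : ∀ p ∈ prs y₁ y₂, Real.log p ≤ 2 * Λ := by
    intro p hp
    rw [mem_prs] at hp
    have hp0 : (0 : ℝ) < p := by exact_mod_cast hp.1.1
    have hpy : (p : ℝ) ≤ y₂ := (Nat.le_floor_iff (by linarith)).1 hp.1.2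
    refine (Real.log_le_log hp0 ?_).trans hlogRN
    exact hpy.trans (hy₂.trans hRN)
  have hlogz : ∀ p ∈ prs z₁ z₂, Real.log p ≤ 2 * Λ := by
    intro p hp
    rw [mem_prs] at hp
    have hp0 : (0 : ℝ) < p := by exact_mod_cast hp.1.1
    have hpy : (p : ℝ) ≤ z₂ := (Nat.le_floor_iff (by linarith)).1 hp.1.2
    refine (Real.log_le_log hp0 ?_).trans hlogRN
    rw [← hz₂]
    exact hpy
  -- the point `X`
  have hX : ∀ n ∈ G, ∀ x : ℝ, y₁ < x → x ≤ y₂ →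
      (N : ℝ) / E ≤ Real.exp (φ + κ * Real.log x + (1 - κ) * Real.log n) ∧
      Real.exp (φ + κ * Real.log x + (1 - κ) * Real.log n) ≤ E * N := by
    intro n hn x hx1 hx2
    obtain ⟨hn1, hn2⟩ := hG n hn
    have hn1' : (N : ℝ) < n := by exact_mod_cast hn1
    have hn2' : (n : ℝ) ≤ 2 * N := by exact_mod_cast hn2
    have hx0 : 0 < x := hy₁0.trans hx1
    have hlx : |Real.log x - Λ| ≤ R := by
      have hlR : Real.log R ≤ R := by
        have := Real.log_le_sub_one_of_pos hR0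
        linarith
      rw [abs_le]
      constructor
      · have h1 : Real.log (N / R) ≤ Real.log x := Real.log_le_log (by positivity) (by linarith)
        rw [Real.log_div hNp.ne' hR0.ne', ← hΛ] at h1
        linarith
      · have h1 : Real.log x ≤ Real.log (R * N) := Real.log_le_log hx0 (by linarith)
        rw [Real.log_mul hR0.ne' hNp.ne', ← hΛ] at h1
        linarith
    have hln : |Real.log n - Λ| ≤ 1 := by
      have hl2 : Real.log 2 ≤ 1 := by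
        have := Real.log_two_lt_d9
        linarith
      rw [abs_le]
      constructor
      · have h1 : Real.log N ≤ Real.log n := Real.log_le_log hNp hn1'.le
        rw [← hΛ] at h1
        linarith
      · have h1 : Real.log n ≤ Real.log (2 * N) := Real.log_le_log (by linarith) hn2'
        rw [Real.log_mul (by norm_num) hNp.ne', ← hΛ] at h1
        linarith
    have hd : |φ + κ * Real.log x + (1 - κ) * Real.log n - Λ| ≤ B := by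
      have e : φ + κ * Real.log x + (1 - κ) * Real.log n - Λ =
          φ + κ * (Real.log x - Λ) + (1 - κ) * (Real.log n - Λ) := by ring
      rw [e]
      refine (abs_add_three _ _ _).trans ?_
      rw [abs_mul, abs_mul, hB]
      have h1 : |κ| * |Real.log x - Λ| ≤ |κ| * R := mul_le_mul_of_nonneg_left hlx hκa.le
      have h2 : |1 - κ| * |Real.log n - Λ| ≤ |1 - κ| * 1 := mul_le_mul_of_nonneg_left hln hκb.le
      linarith
    rw [abs_le] at hd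
    have hNe : (N : ℝ) = Real.exp Λ := by rw [hΛ, Real.exp_log hNp]
    constructor
    · rw [div_le_iff₀ hE0, hNe, hE, ← Real.exp_add]
      apply Real.exp_le_exp.2
      linarith
    · rw [hNe, hE, ← Real.exp_add]
      apply Real.exp_le_exp.2
      linarith
  -- the sum and the main term
  obtain ⟨S, hS⟩ : ∃ S : ℝ, S = ∑ n ∈ G, ∑ p ∈ prs y₁ y₂, ∑ r ∈ prs z₁ z₂, Real.log p * Real.log r *
      tri (l * (φ + κ * Real.log p + (1 - κ) * Real.log n - Real.log r)) := ⟨_, rfl⟩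
  obtain ⟨M, hM⟩ : ∃ M : ℝ, M = ∑ n ∈ G, ∫ w, tri (l * (φ + κ * Real.log w.1 + (1 - κ) * Real.log n - Real.log w.2))
      ∂((volume.restrict (Set.Ioc y₁ y₂)).prod (volume.restrict (Set.Ioc z₁ z₂)) : Measure (ℝ × ℝ)) := ⟨_, rfl⟩
  have hSu : S ≤ (2 * Λ) ^ 2 * (3 * E + 1) * (prsG κ φ δ y₁ y₂ N G).card := by
    rw [hS, hl]
    refine S_upper κ φ δ y₁ y₂ z₁ z₂ (2 * Λ) E N G hN0 hδ hδ1 hlogy hlogz ?_
    intro n hn p hp
    rw [mem_prs] at hp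
    exact (hX n hn p hp.2.2 ((Nat.le_floor_iff (by linarith)).1 hp.1.2)).2
  have hMl : G.card * ((y₂ - y₁) * (δ / (4 * R₃))) ≤ M := by
    rw [hM, ← nsmul_eq_mul]
    refine Finset.card_nsmul_le_sum _ _ _ fun n hn => ?_
    have h1 := M_lower κ φ l y₁ y₂ z₁ z₂ n hl1 hy hz₁0 fun x hx => by
      obtain ⟨h2, h3⟩ := hX n hn x hx.1 hx.2
      constructor
      · refine le_trans (le_of_eq ?_) h2
        rw [hz₁, hR₃]
        field_simp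
      · refine h3.trans ?_
        rw [hz₂, hR₃]
        have := mul_pos hE0 hNp
        linarith
    refine le_trans (le_of_eq ?_) h1
    rw [hz₁, hl]
    field_simp
  -- mean values
  have hGb : (G.card : ℝ) ≤ N := by
    have h1 : G ⊆ Finset.Ioc N (2 * N) := fun n hn => Finset.mem_Ioc.2 (hG n hn)
    have h2 := Finset.card_le_card h1
    rw [Nat.card_Ioc] at h2
    have h3 : G.card ≤ N := by omega
    exact_mod_cast h3
  have hPc : ((prs y₁ y₂).card : ℝ) ≤ R₃ * N := by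
    have h1 : (prs y₁ y₂).card ≤ ⌊y₂⌋₊ := by
      unfold prs
      refine (Finset.card_filter_le _ _).trans ?_
      rw [Nat.card_Icc]
      omega
    have h2 : (⌊y₂⌋₊ : ℝ) ≤ y₂ := Nat.floor_le (by linarith)
    have h3 : ((prs y₁ y₂).card : ℝ) ≤ ⌊y₂⌋₊ := by exact_mod_cast h1
    linarith
  have hQc : ((prs z₁ z₂).card : ℝ) ≤ R₃ * N := by
    have h1 : (prs z₁ z₂).card ≤ ⌊z₂⌋₊ := by
      unfold prs
      refine (Finset.card_filter_le _ _).trans ?_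
      rw [Nat.card_Icc]
      omega
    have h2 : (⌊z₂⌋₊ : ℝ) ≤ z₂ := Nat.floor_le (by linarith)
    have h3 : ((prs z₁ z₂).card : ℝ) ≤ ⌊z₂⌋₊ := by exact_mod_cast h1
    rw [hz₂] at h2
    rw [hz₂] at h3 ⊢
    linarith
  have hRN2 : R₃ * N * (2 * Λ) ≤ (N : ℝ) ^ 2 := by
    rw [pow_one] at hN4
    have h1 : 2 * R₃ * Λ ≤ N := by
      calc 2 * R₃ * Λ ≤ 2 * R₃ * (1 / (2 * R₃) * N) := mul_le_mul_of_nonneg_left hN4 (by positivity)
        _ = N := by field_simp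
    calc R₃ * N * (2 * Λ) = 2 * R₃ * Λ * N := by ring
      _ ≤ N * N := mul_le_mul_of_nonneg_right h1 hNp.le
      _ = (N : ℝ) ^ 2 := by ring
  have habs : ∀ p : ℕ, |Real.log p| = Real.log p := fun p => abs_of_nonneg (Real.log_natCast_nonneg p)
  have hb1 : ∀ τ : ℝ, ‖ps (prs y₁ y₂) τ‖ ≤ (N : ℝ) ^ 2 := fun τ => by
    refine (ps_bd _ τ (2 * Λ) fun p hp => ?_).trans ?_
    · rw [habs]
      exact hlogy p hp
    · exact (mul_le_mul_of_nonneg_right hPc (by positivity)).trans hRN2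
  have hb2 : ∀ τ : ℝ, ‖ps (prs z₁ z₂) τ‖ ≤ (N : ℝ) ^ 2 := fun τ => by
    refine (ps_bd _ τ (2 * Λ) fun p hp => ?_).trans ?_
    · rw [habs]
      exact hlogz p hp
    · exact (mul_le_mul_of_nonneg_right hQc (by positivity)).trans hRN2
  have hRN3 : R₃ * N ≤ (N : ℝ) ^ 2 := by
    rw [sq]
    exact mul_le_mul_of_nonneg_right hN1 hNp.le
  have hb3 : ∀ τ : ℝ, ‖ii y₁ y₂ τ‖ ≤ (N : ℝ) ^ 2 := fun τ => by
    refine (ii_bd _ _ τ hy).trans ?_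
    linarith
  have hb4 : ∀ τ : ℝ, ‖ii z₁ z₂ τ‖ ≤ (N : ℝ) ^ 2 := fun τ => by
    refine (ii_bd _ _ τ hz₁₂).trans ?_
    rw [← hz₂] at hRN3
    linarith
  have hfr : ∀ ξ : ℝ, |ξ| ≤ (N : ℝ) ^ 4 → |2 * Real.pi * (l * κ) * ξ| ≤ (N : ℝ) ^ 6 := by
    intro ξ hξ
    refine freq (l * κ) N ξ ?_ hξ
    rw [abs_mul, abs_of_pos hl0]
    have e : 2 * Real.pi * (l * |κ|) = 2 * Real.pi * |κ| / δ * N := by
      rw [hl]
      ring
    rw [e, sq]
    exact mul_le_mul_of_nonneg_right hN3 hNp.le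
  have hfr' : ∀ ξ : ℝ, |ξ| ≤ (N : ℝ) ^ 4 → |2 * Real.pi * (-l) * ξ| ≤ (N : ℝ) ^ 6 := by
    intro ξ hξ
    refine freq (-l) N ξ ?_ hξ
    rw [abs_neg, abs_of_pos hl0]
    have e : 2 * Real.pi * l = 2 * Real.pi / δ * N := by
      rw [hl]
      ring
    rw [e, sq]
    exact mul_le_mul_of_nonneg_right hN3' hNp.le
  have herr := err_gen K hKc hKi hK0 hK1 (fun ξ => ex (2 * Real.pi * (l * φ) * ξ))
    (fun ξ => gs G (2 * Real.pi * (l * (1 - κ)) * ξ)) (fun ξ => ps (prs y₁ y₂) (2 * Real.pi * (l * κ) * ξ))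
    (fun ξ => ps (prs z₁ z₂) (2 * Real.pi * (-l) * ξ)) (fun ξ => ii y₁ y₂ (2 * Real.pi * (l * κ) * ξ))
    (fun ξ => ii z₁ z₂ (2 * Real.pi * (-l) * ξ))
    (ex_cont.comp (by fun_prop)) ((gs_cont G).comp (by fun_prop)) ((ps_cont _).comp (by fun_prop))
    ((ps_cont _).comp (by fun_prop)) ((ii_cont _ _ hy).comp (by fun_prop)) ((ii_cont _ _ hz₁₂).comp (by fun_prop))
    N ((N : ℝ) ^ 4) (N / Λ ^ (C + 4)) (Λ ^ (C + 3)) (by positivity) (by positivity) (by positivity)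
    (fun ξ => (ex_norm _).le) (fun ξ => (gs_bd G _).trans hGb) (fun ξ => hb1 _) (fun ξ => hb2 _)
    (fun ξ => hb3 _) (fun ξ => hb4 _)
    (fun ξ hξ => hz y₁ y₂ _ hy₁ hy hy₂ (hfr ξ hξ))
    (fun ξ hξ => hz' z₁ z₂ _ hz₁.ge hz₁₂ hz₂.le (hfr' ξ hξ))
  rw [← four_sum K hKc hKi hK0 hinv G (prs y₁ y₂) (prs z₁ z₂) l φ κ,
    (four_int K hKc hKi hK0 hinv G y₁ y₂ z₁ z₂ l φ κ hy hz₁₂).2, ← hS, ← hM, ← Complex.ofReal_sub,
    Complex.norm_real, Real.norm_eq_abs] at herr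
  have hA₁ : ∫ ξ, K ξ * ‖gs G (2 * Real.pi * (l * (1 - κ)) * ξ)‖ ^ 2 ≤ G.card * c₁ := by
    have h1 := hMS K hKc hKi hK0 hinv G (fun _ => 1) 1 (2 * N) (l * (1 - κ)) (fun n hn => by
      obtain ⟨hn1, hn2⟩ := hG n hn
      refine ⟨by omega, by exact_mod_cast hn2, by simp⟩) (mul_ne_zero hl0.ne' hκ1')
    have e : ∀ ξ : ℝ, ∑ n ∈ G, ((1 : ℝ) : ℂ) * ex (2 * Real.pi * (l * (1 - κ)) * ξ * Real.log n) =
        gs G (2 * Real.pi * (l * (1 - κ)) * ξ) := by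
      intro ξ
      unfold gs
      simp
    simp only [e] at h1
    refine h1.trans ?_
    rw [one_pow, one_mul]
    refine mul_le_mul_of_nonneg_left ?_ (Nat.cast_nonneg _)
    rw [hc₁, abs_mul, abs_of_pos hl0]
    have h2 : 2 * (2 * (N : ℝ)) / (l * |1 - κ|) ≤ 4 / |1 - κ| := by
      rw [div_le_div_iff₀ (by positivity) hκb]
      have := mul_le_mul_of_nonneg_right hlN hκb.le
      linarith
    linarith
  have hA₂ : ∫ ξ, K ξ * ‖ps (prs z₁ z₂) (2 * Real.pi * (-l) * ξ)‖ ^ 2 ≤ c₂ * N * Λ ^ 2 := by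
    have h1 := hMS K hKc hKi hK0 hinv (prs z₁ z₂) (fun n => Real.log n) (2 * Λ) z₂ (-l) (fun n hn => by
      have hn' := mem_prs.1 hn
      refine ⟨hn'.1.1, (Nat.le_floor_iff (by linarith)).1 hn'.1.2, ?_⟩
      rw [habs]
      exact hlogz n hn) (neg_ne_zero.2 hl0.ne')
    have e : ∀ ξ : ℝ, ∑ n ∈ prs z₁ z₂, ((Real.log n : ℝ) : ℂ) * ex (2 * Real.pi * (-l) * ξ * Real.log n) =
        ps (prs z₁ z₂) (2 * Real.pi * (-l) * ξ) := fun ξ => rfl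
    simp only [e] at h1
    refine h1.trans ?_
    rw [abs_neg, abs_of_pos hl0]
    have h2 : 2 * z₂ / l + 1 ≤ 2 * R₃ + 1 := by
      have : 2 * z₂ / l ≤ 2 * R₃ := by
        rw [div_le_iff₀ hl0, hz₂]
        have := mul_le_mul_of_nonneg_left hlN hR₃0.le
        linarith
      linarith
    calc (2 * Λ) ^ 2 * ((prs z₁ z₂).card : ℝ) * (2 * z₂ / l + 1) ≤
        (2 * Λ) ^ 2 * (R₃ * N) * (2 * R₃ + 1) := by
          have hz₂0 : 0 < z₂ := by linarith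
          gcongr
      _ = c₂ * N * Λ ^ 2 := by
        rw [hc₂]
        ring
  have hA₃ : ∫ ξ, K ξ * ‖ii y₁ y₂ (2 * Real.pi * (l * κ) * ξ)‖ ^ 2 ≤ c₃ * N := by
    obtain ⟨hlor, hlor'⟩ := int_lor (2 * Real.pi * (l * |κ|)) (by positivity)
    have h1 : ∫ ξ, K ξ * ‖ii y₁ y₂ (2 * Real.pi * (l * κ) * ξ)‖ ^ 2 ≤
        ∫ ξ, kmax * (2 * y₂) ^ 2 * (1 + (2 * Real.pi * (l * |κ|) * ξ) ^ 2)⁻¹ := by
      refine integral_mono (int_sq K hKc hKi hK0 _ ((ii_cont _ _ hy).comp (by fun_prop)) ((N : ℝ) ^ 2)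
        fun ξ => hb3 _) (hlor.const_mul _) fun ξ => ?_
      have h2 := ii_sq y₁ y₂ (2 * Real.pi * (l * κ) * ξ) hy₁0 hy
      have e : (2 * Real.pi * (l * |κ|) * ξ) ^ 2 = (2 * Real.pi * (l * κ) * ξ) ^ 2 := by
        have := sq_abs κ
        calc (2 * Real.pi * (l * |κ|) * ξ) ^ 2 = (2 * Real.pi * l * ξ) ^ 2 * |κ| ^ 2 := by ring
          _ = (2 * Real.pi * l * ξ) ^ 2 * κ ^ 2 := by rw [this]
          _ = _ := by ring
      calc K ξ * ‖ii y₁ y₂ (2 * Real.pi * (l * κ) * ξ)‖ ^ 2 ≤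
          kmax * ((2 * y₂) ^ 2 * (1 + (2 * Real.pi * (l * κ) * ξ) ^ 2)⁻¹) :=
            mul_le_mul (hk ξ) h2 (by positivity) hk0.le
        _ = kmax * (2 * y₂) ^ 2 * (1 + (2 * Real.pi * (l * |κ|) * ξ) ^ 2)⁻¹ := by
          rw [e]
          exact (mul_assoc _ _ _).symm
    refine h1.trans ?_
    rw [integral_const_mul, hlor', hc₃]
    have h3 : (2 * y₂) ^ 2 ≤ (2 * (R * N)) ^ 2 := pow_le_pow_left₀ (by linarith) (by linarith) 2
    have hy₂0 : 0 < y₂ := by linarith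
    calc kmax * (2 * y₂) ^ 2 * (Real.pi / (2 * Real.pi * (l * |κ|))) ≤
        kmax * (2 * (R * N)) ^ 2 * (Real.pi / (2 * Real.pi * (N * |κ|))) := by gcongr
      _ = _ := by
        field_simp
  have hnum := num_err N Λ G.card c₁ c₂ c₃ _ _ _ C hNp hN6 (Nat.cast_nonneg _) hc₂0 hc₃0 hGN
    (by rw [one_mul] at hN5; exact hN5) hA₁ hA₂ hA₃
  have htail : 4 * (N : ℝ) ^ 5 * Real.pi / (N : ℝ) ^ 4 = 4 * Real.pi * N := by
    field_simp
  rw [htail] at herr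
  rw [← hc] at hnum
  have herr2 := herr.trans hnum
  -- conclusion
  have h1 : c * 8 * R₃ ≤ Λ * (η * δ) := by
    rw [div_le_iff₀ (by positivity)] at hN7
    exact hN7
  have hfin := fin1 c R₃ η δ N Λ G.card (y₂ - y₁) hR₃0 hNp.le hΛ0 (Nat.cast_nonneg _) hδ.le h1 (by linarith)
  have hMS2 := fin3 R₃ δ (y₂ - y₁) G.card M S _ hR₃0 hMl herr2 hfin
  rw [← hΛ]
  exact fin2 E R₃ δ (y₂ - y₁) G.card Λ _ hR₃0 hE0 hΛ0 (hMS2.trans hSu)

end Pool.Agent.D0H21.CC
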